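import Pool.Agent.H15.F8.PsiCore

/-!
# Project MP_f8d35d_nt, module C2: Kummer generators of invariant characters
-/

namespace F8
namespace H92

/-- `om ^ (val)` is multiplicative -/
theorem omv_add (x y : ZMod 3) : om ^ (x + y).val = om ^ x.val * om ^ y.val := by
  rw [ZMod.val_add, ← om_pow_mod, pow_add]

/-- the stabiliser of `om` -/
def Stab : Subgroup Gam where
  carrier := {s | s om = om}
  mul_mem' := by
    intro s t hs ht
    change s om = om at hs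
    change t om = om at ht
    change (s * t) om = om
    rw [AlgEquiv.mul_apply, ht, hs]
  one_mem' := rfl
  inv_mem' := by
    intro s hs
    change s om = om at hs
    change s⁻¹ om = om
    nth_rw 1 [← hs]
    rw [← AlgEquiv.mul_apply, inv_mul_cancel, AlgEquiv.one_apply]

theorem mem_Stab (s : Gam) : s ∈ Stab ↔ s om = om := Iff.rfl

theorem gen0 (h90 : H90Stmt) {H : Subgroup Gam} {ψ : Gam → ZMod 3} (hψ : IsPsi H ψ) :
    ∃ z : Qbar, z ≠ 0 ∧ ∀ s ∈ H, s om = om → s z = om ^ (ψ s).val * z := by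
  obtain ⟨z, hz, hz2⟩ := h90 (H ⊓ Stab) (fun s => om ^ (ψ s).val)
    (fun s _ => pow_ne_zero _ om_ne_zero)
    (by
      intro s hs t ht
      rw [hψ.hom s hs.1 t ht.1, omv_add, map_pow, (mem_Stab s).1 hs.2])
    (by
      obtain ⟨L, hL, hL2⟩ := hψ.cont
      refine ⟨L, hL, ?_⟩
      intro s hs hs2
      rw [hL2 s hs.1 hs2]; simp)
  exact ⟨z, hz, fun s hs h => hz2 s ⟨hs, h⟩⟩

theorem inv_mul_self (s : Gam) (x : Qbar) : s⁻¹ (s x) = x := by
  rw [← AlgEquiv.mul_apply, inv_mul_cancel, AlgEquiv.one_apply]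

theorem mul_inv_self (s : Gam) (x : Qbar) : s (s⁻¹ x) = x := by
  rw [← AlgEquiv.mul_apply, mul_inv_cancel, AlgEquiv.one_apply]

theorem inv_fix {s : Gam} {x : Qbar} (h : s x = x) : s⁻¹ x = x := by
  conv_lhs => rw [← h]
  exact inv_mul_self s x

/-- conjugation by any element preserves the stabiliser of `om` -/
theorem conj_om (r s : Gam) (hs : s om = om) : (r⁻¹ * s * r) om = om := by
  rw [AlgEquiv.mul_apply, AlgEquiv.mul_apply]
  rcases gam_om r with h | h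
  · rw [h, hs]; exact inv_fix h
  · rw [h, map_pow, hs, ← h]; exact inv_mul_self r om

/-- norm argument: a rational number which is the cube of `c * v` with `v ∈ ℚ(ω)`. -/
theorem norm_cube (τ : Gam) (hτ : τ om = om ^ 2) (n : ℚ) (hn : n ≠ 0) (y c : Qbar) (c0 : ℚ)
    (hc : c ≠ 0) (hy : y ^ 3 = n) (hcc : (c * τ c) ^ 3 = (c0 : Qbar) ^ 3)
    (hv : ∀ s : Gam, s om = om → s (y / c) = y / c) : ∃ r : ℚ, n = r ^ 3 := by
  obtain ⟨a, b, hab⟩ := fix_om (y / c) hv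
  have hτv : τ (y / c) = a + b * om ^ 2 := by
    rw [hab, map_add, map_mul, hτ]; simp
  have e1 : (y / c) * τ (y / c) = ((a ^ 2 - a * b + b ^ 2 : ℚ) : Qbar) := by
    rw [hτv, hab]
    push_cast
    linear_combination (a * b + b ^ 2 * (om - 1)) * om_spec
  have hy2 : y = (y / c) * c := (div_mul_cancel₀ _ hc).symm
  have hτy : (τ y) ^ 3 = n := by
    rw [← map_pow, hy]; simp
  have hτy2 : τ y = τ (y / c) * τ c := by rw [← map_mul, div_mul_cancel₀ _ hc]
  have e2 : (n : Qbar) * n = (((a ^ 2 - a * b + b ^ 2) * c0 : ℚ) : Qbar) ^ 3 := by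
    push_cast
    calc (n : Qbar) * n = y ^ 3 * (τ y) ^ 3 := by rw [hy, hτy]
      _ = ((y / c) * τ (y / c)) ^ 3 * (c * τ c) ^ 3 := by
          nth_rw 1 [hy2]
          rw [hτy2]; ring
      _ = _ := by rw [e1, hcc]; push_cast; ring
  have e3 : n * n = ((a ^ 2 - a * b + b ^ 2) * c0) ^ 3 := by exact_mod_cast e2
  set M := (a ^ 2 - a * b + b ^ 2) * c0 with hM
  have hM0 : M ≠ 0 := by
    intro h0
    rw [h0] at e3
    apply hn
    have : n * n = 0 := by rw [e3]; ring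
    exact mul_self_eq_zero.1 this
  refine ⟨n / M, ?_⟩
  rw [div_pow, ← e3]
  field_simp

theorem norm_eq (τ : Gam) (hτ : τ om = om ^ 2) (a b : ℚ) (x : Qbar) (h : x = a + b * om) :
    x * τ x = ((a ^ 2 - a * b + b ^ 2 : ℚ) : Qbar) := by
  have hτv : τ x = a + b * om ^ 2 := by
    rw [h, map_add, map_mul, hτ]; simp
  rw [hτv, h]
  push_cast
  linear_combination (a * b + b ^ 2 * (om - 1)) * om_spec

/-- behaviour of `τ z` -/
theorem tau_z {H : Subgroup Gam} {ψ : Gam → ZMod 3} {z : Qbar}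
    (hz : ∀ s ∈ H, s om = om → s z = om ^ (ψ s).val * z) (τ : Gam) (hτ : τ om = om ^ 2)
    (hN : ∀ s ∈ H, τ⁻¹ * s * τ ∈ H) (hinv : ∀ s ∈ H, ψ (τ⁻¹ * s * τ) = ψ s)
    (s : Gam) (hs : s ∈ H) (hs2 : s om = om) : s (z * τ z) = z * τ z := by
  have h1 : s (τ z) = τ ((τ⁻¹ * s * τ) z) := by
    rw [AlgEquiv.mul_apply, AlgEquiv.mul_apply, mul_inv_self]
  rw [map_mul, h1, hz s hs hs2, hz _ (hN s hs) (conj_om τ s hs2), hinv s hs, map_mul, map_pow, hτ]
  have : om ^ (ψ s).val * (om ^ 2) ^ (ψ s).val = 1 := by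
    rw [← mul_pow, ← pow_succ', om_cube, one_pow]
  linear_combination (z * τ z) * this

theorem partTwo (h90 : H90Stmt) (hK : KSetupStmt) (ψ : Gam → ZMod 3) (hψ : IsPsi ⊤ ψ) :
    ∃ z : Qbar, z ≠ 0 ∧ (∀ s : Gam, s om = om → s z = om ^ (ψ s).val * z) ∧
    ∃ a b r : ℚ, z ^ 3 = (a : Qbar) + b * om ∧ a ^ 2 - a * b + b ^ 2 = r ^ 3 := by
  obtain ⟨z, hz, hzψ⟩ := gen0 h90 hψ
  have hz3 : ∀ s : Gam, s om = om → s (z ^ 3) = z ^ 3 := by
    intro s hs
    rw [map_pow, hzψ s (Subgroup.mem_top s) hs, mul_pow, ← pow_mul, mul_comm _ 3, pow_mul,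
      om_cube, one_pow, one_mul]
  obtain ⟨a, b, hab⟩ := fix_om _ hz3
  obtain ⟨τ, _, hτ⟩ := hK.2.1.tau
  have hinv : ∀ s ∈ (⊤ : Subgroup Gam), ψ (τ⁻¹ * s * τ) = ψ s := by
    intro s _
    have e1 := hψ.hom (τ⁻¹ * s) (Subgroup.mem_top _) τ (Subgroup.mem_top _)
    have e2 := hψ.hom τ⁻¹ (Subgroup.mem_top _) s (Subgroup.mem_top _)
    have e3 := hψ.hom τ⁻¹ (Subgroup.mem_top _) τ (Subgroup.mem_top _)
    have e4 := hψ.hom 1 (Subgroup.mem_top _) 1 (Subgroup.mem_top _)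
    rw [inv_mul_cancel] at e3
    rw [mul_one] at e4
    have e5 : ψ 1 = 0 := by
      have := e4
      nth_rw 1 [← add_zero (ψ 1)] at this
      exact (add_left_cancel this).symm
    rw [e1, e2]
    rw [e5] at e3
    calc ψ τ⁻¹ + ψ s + ψ τ = ψ s + (ψ τ⁻¹ + ψ τ) := by ring
      _ = ψ s := by rw [← e3, add_zero]
  have hn := norm_eq τ hτ a b _ hab
  have hn0 : a ^ 2 - a * b + b ^ 2 ≠ 0 := by
    intro h0
    rw [h0] at hn
    have h1 : z ^ 3 * τ (z ^ 3) ≠ 0 := mul_ne_zero (pow_ne_zero _ hz)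
      ((map_ne_zero τ).2 (pow_ne_zero _ hz))
    apply h1; rw [hn]; simp
  obtain ⟨r, hr⟩ := norm_cube τ hτ (a ^ 2 - a * b + b ^ 2) hn0 (z * τ z) 1 1 one_ne_zero
    (by rw [← hn, map_pow]; ring) (by simp)
    (by
      intro s hs
      rw [div_one]
      exact tau_z hzψ τ hτ (fun _ _ => Subgroup.mem_top _) hinv s (Subgroup.mem_top _) hs)
  exact ⟨z, hz, fun s hs => hzψ s (Subgroup.mem_top s) hs, a, b, r, hab, hr⟩

theorem partOne (h90 : H90Stmt) (hK : KSetupStmt) (hNom : NormOmStmt) (ψ : Gam → ZMod 3)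
    (hψ : IsPsi HK ψ) (hinv : ∀ r : Gam, ∀ s ∈ HK, ψ (r⁻¹ * s * r) = ψ s) :
    ∃ z : Qbar, z ≠ 0 ∧ (∀ s ∈ HK, s om = om → s z = om ^ (ψ s).val * z) ∧
    ∃ a b r : ℚ, z ^ 3 = (a : Qbar) + b * om ∧ a ^ 2 - a * b + b ^ 2 = r ^ 3 := by
  obtain ⟨z0, hz0, hz0ψ⟩ := gen0 h90 hψ
  obtain ⟨hS, _, hNormal, ⟨σ, hσ1, hσ2⟩, hdec⟩ := hK
  have hN : ∀ r s : Gam, s ∈ HK → r⁻¹ * s * r ∈ HK := by
    intro r s hs
    have := hNormal.conj_mem s hs r⁻¹
    rwa [inv_inv] at this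
  -- `t = σ z0 / z0` is fixed by `H1`
  set t := σ z0 / z0 with ht
  have ht0 : t ≠ 0 := div_ne_zero ((map_ne_zero σ).2 hz0) hz0
  have hσz0 : σ z0 = t * z0 := by rw [ht, div_mul_cancel₀ _ hz0]
  have hconj : ∀ (r s : Gam) (x : Qbar), s (r x) = r ((r⁻¹ * s * r) x) := by
    intro r s x
    rw [AlgEquiv.mul_apply, AlgEquiv.mul_apply, mul_inv_self]
  have hfix : ∀ s : Gam, s om = om → s th = th → s t = t := by
    intro s h1 h2
    have hs : s ∈ HK := (hS.mem s h1).2 h2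
    rw [ht, map_div₀, hconj σ s z0, hz0ψ s hs h1, hz0ψ _ (hN σ s hs) (conj_om σ s h1),
      hinv σ s hs, map_mul, map_pow, hσ1]
    rw [mul_div_mul_left _ _ (pow_ne_zero _ om_ne_zero)]
  -- conjugates of elements fixed by `H1`
  have hconjfix : ∀ x : Qbar, (∀ s : Gam, s om = om → s th = th → s x = x) →
      ∀ s : Gam, s om = om → s th = th → s (σ x) = σ x := by
    intro x hx s h1 h2
    have hs : s ∈ HK := (hS.mem s h1).2 h2
    have h3 := conj_om σ s h1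
    rw [hconj σ s x, hx _ h3 ((hS.mem _ h3).1 (hN σ s hs))]
  -- the norm of `t`
  have hσ3om : (σ * σ * σ) om = om := by
    rw [AlgEquiv.mul_apply, AlgEquiv.mul_apply, hσ1, hσ1, hσ1]
  have hσ3th : (σ * σ * σ) th = th := by
    rw [AlgEquiv.mul_apply, AlgEquiv.mul_apply, hσ2, map_mul, hσ1, hσ2, map_mul, map_mul, hσ1, hσ2]
    linear_combination th * om_cube
  have hσ3 : σ * σ * σ ∈ HK := (hS.mem _ hσ3om).2 hσ3th
  have hnormt : t * σ t * σ (σ t) = om ^ (ψ (σ * σ * σ)).val := by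
    have e1 := hz0ψ _ hσ3 hσ3om
    rw [AlgEquiv.mul_apply, AlgEquiv.mul_apply, hσz0, map_mul, hσz0, map_mul, map_mul, hσz0] at e1
    have e2 : (t * σ t * σ (σ t)) * z0 = om ^ (ψ (σ * σ * σ)).val * z0 := by
      rw [← e1]; ring
    exact mul_right_cancel₀ hz0 e2
  have hnorm1 : t * σ t * σ (σ t) = 1 := by
    obtain ⟨g1, g2⟩ := hNom σ hσ1 hσ2 t hfix
    rw [hnormt] at g1 g2 ⊢
    have hlt := zmod3_val_lt (ψ (σ * σ * σ))
    interval_cases (ψ (σ * σ * σ)).val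
    · exact pow_zero om
    · exact absurd (pow_one om) g1
    · exact absurd rfl g2
  have hth0 : th ≠ 0 := hS.ne
  -- Lagrange resolvents
  obtain ⟨k, hk⟩ : ∃ k : ℕ, 1 + t * om ^ k + t * σ t * (om ^ k) ^ 2 ≠ 0 := by
    by_contra hcon
    push Not at hcon
    have h0 := hcon 0
    have h1 := hcon 1
    have h2 := hcon 2
    have : (3 : Qbar) = 0 := by
      linear_combination h0 + h1 + h2 - t * om_spec - t * σ t * ((om ^ 2 - om + 1) * om_spec)
    norm_num at this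
  set u := th ^ k * (1 + t * om ^ k + t * σ t * (om ^ k) ^ 2) with hu
  have hu0 : u ≠ 0 := mul_ne_zero (pow_ne_zero _ hth0) hk
  have hσu : t * σ u = u := by
    rw [hu, map_mul, map_pow, hσ2, map_add, map_add, map_mul, map_mul, map_mul, map_pow, map_pow,
      map_pow, hσ1, map_one]
    have ho : (om ^ k) ^ 3 = 1 := by rw [← pow_mul, mul_comm, pow_mul, om_cube, one_pow]
    rw [mul_pow]
    linear_combination (om ^ k * th ^ k * (om ^ k) ^ 2) * hnorm1 + th ^ k * ho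
  have hufix : ∀ s : Gam, s om = om → s th = th → s u = u := by
    intro s h1 h2
    rw [hu, map_mul, map_pow, h2, map_add, map_add, map_mul, map_mul, map_mul, map_pow, map_pow,
      map_pow, h1, map_one, hfix s h1 h2, hconjfix t hfix s h1 h2]
  set z := z0 * u with hz
  have hz' : z ≠ 0 := mul_ne_zero hz0 hu0
  have hσz : σ z = z := by
    rw [hz, map_mul, hσz0]
    linear_combination z0 * hσu
  have hzψ : ∀ s ∈ HK, s om = om → s z = om ^ (ψ s).val * z := by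
    intro s hs h1
    rw [hz, map_mul, hz0ψ s hs h1, hufix s h1 ((hS.mem s h1).1 hs)]
    ring
  -- decomposition of the stabiliser
  have hstab : ∀ x : Qbar, σ x = x → (∀ s ∈ HK, s om = om → s x = x) →
      ∀ s : Gam, s om = om → s x = x := by
    intro x hx1 hx2 s hs
    obtain ⟨j, _, h, hh, hsj⟩ := hdec σ hσ1 hσ2 s
    have hσj : ∀ j : ℕ, ∀ y : Qbar, σ y = y → (σ ^ j) y = y := by
      intro j y hy
      induction j with
      | zero => simp
      | succ n ih => rw [pow_succ, AlgEquiv.mul_apply, hy, ih]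
    have hom : h om = om := by
      have : h = (σ ^ j)⁻¹ * s := by rw [hsj]; group
      rw [this, AlgEquiv.mul_apply, hs]
      exact inv_fix (hσj j om hσ1)
    rw [hsj, AlgEquiv.mul_apply, hx2 h hh hom, hσj j x hx1]
  have hz3 : ∀ s : Gam, s om = om → s (z ^ 3) = z ^ 3 := by
    apply hstab
    · rw [map_pow, hσz]
    · intro s hs h1
      rw [map_pow, hzψ s hs h1, mul_pow, ← pow_mul, mul_comm _ 3, pow_mul,
        om_cube, one_pow, one_mul]
  obtain ⟨a, b, hab⟩ := fix_om _ hz3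
  obtain ⟨τ, hτH, hτ⟩ := hS.tau
  have hn := norm_eq τ hτ a b _ hab
  have hn0 : a ^ 2 - a * b + b ^ 2 ≠ 0 := by
    intro h0
    rw [h0] at hn
    have h1 : z ^ 3 * τ (z ^ 3) ≠ 0 := mul_ne_zero (pow_ne_zero _ hz')
      ((map_ne_zero τ).2 (pow_ne_zero _ hz'))
    apply h1; rw [hn]; simp
  set y := z * τ z with hy
  have hy0 : y ≠ 0 := mul_ne_zero hz' ((map_ne_zero τ).2 hz')
  have hy3 : y ^ 3 = ((a ^ 2 - a * b + b ^ 2 : ℚ) : Qbar) := by
    rw [← hn, hy, map_pow]; ring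
  have hyfix : ∀ s ∈ HK, s om = om → s y = y :=
    fun s hs h1 => tau_z hzψ τ hτ (hN τ) (hinv τ) s hs h1
  -- `σ y = om ^ j * y`
  obtain ⟨j, hj⟩ := cube_root_of_one (x := σ y / y) (by
    rw [div_pow, ← map_pow, hy3]
    rw [map_ratCast]
    apply div_self
    exact_mod_cast hn0)
  have hσy : σ y = om ^ j * y := by rw [← hj, div_mul_cancel₀ _ hy0]
  have hc0 : th ^ j ≠ 0 := pow_ne_zero _ hth0
  -- cube of `th * τ th`
  have hka : τ ka = 18031 * (10 - 129 * om ^ 2) := by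
    unfold ka
    rw [map_mul, map_sub, map_mul, map_ofNat, map_ofNat, map_ofNat, hτ]
  have hthth : (th * τ th) ^ 3 = (18031 : Qbar) ^ 3 := by
    rw [mul_pow, ← map_pow, th_spec, hka]
    unfold ka
    linear_combination (18031 ^ 2 * (129 ^ 2 * (om - 1) - 1290) : Qbar) * om_spec
  obtain ⟨r, hr⟩ := norm_cube τ hτ (a ^ 2 - a * b + b ^ 2) hn0 y (th ^ j) (18031 ^ j) hc0 hy3
    (by
      rw [map_pow, ← mul_pow, ← pow_mul, mul_comm j 3, pow_mul, hthth]
      push_cast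
      rw [← pow_mul, ← pow_mul, mul_comm])
    (by
      apply hstab
      · rw [map_div₀, hσy, map_pow, hσ2, mul_pow]
        rw [mul_div_mul_left _ _ (pow_ne_zero _ om_ne_zero)]
      · intro s hs h1
        rw [map_div₀, hyfix s hs h1, map_pow, (hS.mem s h1).1 hs])
  exact ⟨z, hz', hzψ, a, b, r, hab, hr⟩

theorem gi (h90 : H90Stmt) (hK : KSetupStmt) (hNom : NormOmStmt) : GIStmt :=
  ⟨fun ψ hψ hinv => partOne h90 hK hNom ψ hψ hinv, fun ψ hψ => partTwo h90 hK ψ hψ⟩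

end H92
end F8
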