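import Pool.Agent.H15.F8.PsiCore

/-!
# Project MP_f8d35d_nt, module C5: at `13` and `73` the character is locally trivial
-/

namespace F8
namespace H92

theorem two_PT {A : Type} [Field A] [DecidableEq A] [Algebra ℚ A] :
    (2 : ℕ) • (PT : Pt A) = -PT := by
  rw [two_nsmul, PT_add_PT]

/-- the local character vanishes on the decomposition group -/
theorem psi_dec (hLA : LAStmt) {H : Subgroup Gam} {ψ : Gam → ZMod 3} (hloc : PsiLoc H ψ)
    (p : ℕ) [Fact p.Prime] (hp : p = 13 ∨ p = 73) (i : Qbar →+* Om p) (g : Gp p) (s : Gam)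
    (hs : s ∈ H) (hr : Res i g s) : ψ s = 0 := by
  obtain ⟨R, hR⟩ := hloc p i
  have h1 := hR g s hs hr
  obtain ⟨h2, h3⟩ := hLA p hp R g
  rw [← h1] at h2 h3
  have key : ∀ x : ZMod 3, x = 0 ∨ x = 1 ∨ x = 2 := by decide
  rcases key (ψ s) with h | h | h
  · exact h
  · exfalso; apply h2; rw [h]
    change (1 : ℕ) • (PT : Pt (Om p)) = PT
    rw [one_nsmul]
  · exfalso; apply h3; rw [h]
    change (2 : ℕ) • (PT : Pt (Om p)) = -PT
    exact two_PT

theorem psiC (hLA : LAStmt) (hKum : KumStmt) (hOm : OmStmt) : PsiCStmt := by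
  intro H θ ψ z hD p _ hp i
  have hmod : p % 3 = 1 := by rcases hp with rfl | rfl <;> norm_num
  obtain ⟨w, hw⟩ := hOm p hmod i
  have hbot : i om ∈ (⊥ : IntermediateField ℚ_[p] (Om p)) := by
    rw [hw]; exact IntermediateField.algebraMap_mem _ _
  have hrat : ∀ a : ℚ, i (a : Qbar) ∈ (⊥ : IntermediateField ℚ_[p] (Om p)) := by
    intro a
    have : i (a : Qbar) = algebraMap ℚ_[p] (Om p) (a : ℚ_[p]) := by
      rw [map_ratCast, map_ratCast]
    rw [this]; exact IntermediateField.algebraMap_mem _ _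
  have hquad : ∀ a b : ℚ, i ((a : Qbar) + b * om) ∈ (⊥ : IntermediateField ℚ_[p] (Om p)) := by
    intro a b
    rw [map_add, map_mul]
    exact add_mem (hrat a) (mul_mem (hrat b) hbot)
  have hgom : ∀ g : Gp p, g (i om) = i om := by
    intro g
    rw [hw]; exact g.commutes w
  obtain ⟨a, b, hab⟩ := hD.setup.cube
  obtain ⟨a', b', hab'⟩ := hD.cube
  have hfix : ∀ g : Gp p, (∀ a ∈ (⊥ : IntermediateField ℚ_[p] (Om p)), g a = a) →
      g (i θ) = i θ → g (i z) = i z := by
    intro g _ h2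
    obtain ⟨s, hs⟩ := exists_res i g
    have e1 : s om = om := (res_om hs).1 (hgom g)
    have e2 : s θ = θ := (res_eq hs θ θ).1 h2
    have e3 : s ∈ H := (hD.setup.mem s e1).2 e2
    have e4 := psi_dec hLA hD.loc p hp i g s e3 hs
    have e5 := hD.gen s e3 e1
    rw [e4] at e5
    rw [hs z, e5]
    change i (om ^ 0 * z) = i z
    rw [pow_zero, one_mul]
  obtain ⟨j, hj, t, ht, hx⟩ := hKum ℚ_[p] (Om p) ⊥ (i om) (i θ) (i z) hbot
    (by rw [← map_pow, ← map_add, ← map_one i, ← map_add, om_spec, map_zero])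
    ((map_ne_zero i).2 hD.setup.ne)
    (by rw [← map_pow, hab]; exact hquad a b) (by rw [← map_pow, hab']; exact hquad a' b') hfix
  obtain ⟨t', ht'⟩ := IntermediateField.mem_bot.1 ht
  refine ⟨j, hj, t', ?_⟩
  rw [map_pow i z, hx, ← ht', map_pow i θ]
  ring

end H92
end F8
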