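import Pool.Agent.H15.F8.Targets

/-!
# Project MP_f8d35d_nt, modules N3, N4: explicit cubic residues modulo `13`, `73` and `19`
-/

namespace F8
namespace H92

section padic

variable {p : ℕ} [hp : Fact p.Prime]

theorem norm_one_iff (z : ℤ_[p]) : ‖z‖ = 1 ↔ PadicInt.toZMod z ≠ 0 := by
  rw [← PadicInt.isUnit_iff, ← not_iff_not, not_not, ← RingHom.mem_ker, PadicInt.ker_toZMod,
    IsLocalRing.mem_maximalIdeal, mem_nonunits_iff]

theorem gen (M N A : ℤ_[p]) (hM : ‖M‖ = 1) (hN : ‖N‖ = 1) (v : ℕ) (hv : v = 1 ∨ v = 2)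
    (hA : ‖A‖ = (p : ℝ) ^ (-(v : ℤ))) (x j : ℕ) (hx : x < 3) (hj : j < 3) (t : ℚ_[p])
    (h : (M : ℚ_[p]) * (A : ℚ_[p]) ^ x = ((N : ℚ_[p]) * (A : ℚ_[p])) ^ j * t ^ 3) :
    x = j ∧ ∃ τ : ℤ_[p], M = N ^ j * τ ^ 3 := by
  have hp0 : (0 : ℝ) < p := by exact_mod_cast hp.out.pos
  have hp1 : (1 : ℝ) < p := by exact_mod_cast hp.out.one_lt
  have hA0 : A ≠ 0 := by
    intro h0
    rw [h0, norm_zero] at hA
    have := zpow_pos hp0 (-(v : ℤ))
    linarith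
  have hM0 : M ≠ 0 := by
    intro h0
    rw [h0, norm_zero] at hM
    norm_num at hM
  have hA0' : (A : ℚ_[p]) ≠ 0 := by
    rwa [Ne, PadicInt.coe_eq_zero]
  have hM0' : (M : ℚ_[p]) ≠ 0 := by
    rwa [Ne, PadicInt.coe_eq_zero]
  have ht : t ≠ 0 := by
    intro h0
    rw [h0] at h
    have : (M : ℚ_[p]) * (A : ℚ_[p]) ^ x ≠ 0 := mul_ne_zero hM0' (pow_ne_zero _ hA0')
    apply this
    rw [h]; ring
  have hnorm := congrArg norm h
  rw [norm_mul, norm_mul, norm_pow, norm_pow, norm_mul, norm_pow, PadicInt.padic_norm_e_of_padicInt,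
    PadicInt.padic_norm_e_of_padicInt, PadicInt.padic_norm_e_of_padicInt, hM, hN, hA, one_mul,
    one_mul, Padic.norm_eq_zpow_neg_valuation ht, ← zpow_natCast, ← zpow_natCast, ← zpow_natCast,
    ← zpow_mul, ← zpow_mul, ← zpow_mul, ← zpow_add₀ hp0.ne'] at hnorm
  have hexp := zpow_right_injective₀ hp0 hp1.ne' hnorm
  have hval : x = j ∧ t.valuation = 0 := by
    rcases hv with rfl | rfl
    · push_cast at hexp
      omega
    · push_cast at hexp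
      omega
  refine ⟨hval.1, ?_⟩
  have htn : ‖t‖ = 1 := by
    rw [Padic.norm_eq_zpow_neg_valuation ht, hval.2]; simp
  obtain ⟨τ, hτ⟩ : ∃ τ : ℤ_[p], (τ : ℚ_[p]) = t := ⟨⟨t, htn.le⟩, rfl⟩
  refine ⟨τ, ?_⟩
  apply Subtype.ext
  rw [PadicInt.coe_mul, PadicInt.coe_pow, PadicInt.coe_pow, hτ]
  have hx' : (A : ℚ_[p]) ^ x ≠ 0 := pow_ne_zero _ hA0'
  apply mul_right_cancel₀ hx'
  rw [h, mul_pow, hval.1]
  ring

/-- norm of `p (a + b w)` -/
theorem norm_A (u u' : ℤ_[p]) (h : u * u' = p)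
    (hres : PadicInt.toZMod u ≠ 0 ∨ PadicInt.toZMod u' ≠ 0) :
    ∃ v : ℕ, (v = 1 ∨ v = 2) ∧ ‖(p : ℤ_[p]) * u‖ = (p : ℝ) ^ (-(v : ℤ)) := by
  rcases hres with h1 | h1
  · refine ⟨1, Or.inl rfl, ?_⟩
    rw [norm_mul, (norm_one_iff u).2 h1, mul_one, PadicInt.norm_p]
    simp
  · refine ⟨2, Or.inr rfl, ?_⟩
    have h2 := congrArg norm h
    rw [norm_mul, (norm_one_iff u').2 h1, mul_one, PadicInt.norm_p] at h2
    rw [norm_mul, h2, PadicInt.norm_p]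
    have hp0 : (p : ℝ) ≠ 0 := by exact_mod_cast hp.out.ne_zero
    rw [zpow_neg]
    push_cast
    rw [show ((2 : ℤ)) = ((2 : ℕ) : ℤ) from rfl, zpow_natCast]
    field_simp

/-- the cube root of unity in `ℤ_p` attached to an embedding -/
theorem exists_w (hOm : OmStmt) (h3 : p % 3 = 1) (i : Qbar →+* Om p) :
    ∃ w : ℤ_[p], w ^ 2 + w + 1 = 0 ∧ i om = algebraMap ℚ_[p] (Om p) (w : ℚ_[p]) := by
  obtain ⟨w, hw⟩ := hOm p h3 i
  have e : w ^ 2 + w + 1 = 0 := by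
    have h1 := congrArg i om_spec
    rw [map_add, map_add, map_pow, map_one, map_zero, hw, ← map_pow, ← map_add] at h1
    have h2 : algebraMap ℚ_[p] (Om p) (w ^ 2 + w + 1) = 0 := by
      rw [map_add, map_one]; exact h1
    exact (map_eq_zero _).1 h2
  have hn : ‖w‖ ≤ 1 := by
    by_contra hcon
    push Not at hcon
    have h1 : w ^ 3 = 1 := by linear_combination (w - 1) * e
    have h2 := congrArg norm h1
    rw [norm_pow, norm_one] at h2
    have : 1 < ‖w‖ ^ 3 := one_lt_pow₀ hcon (by norm_num)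
    linarith
  obtain ⟨τ, hτ⟩ : ∃ τ : ℤ_[p], (τ : ℚ_[p]) = w := ⟨⟨w, hn⟩, rfl⟩
  refine ⟨τ, ?_, by rw [hτ]; exact hw⟩
  apply Subtype.ext
  rw [PadicInt.coe_add, PadicInt.coe_add, PadicInt.coe_pow, hτ, PadicInt.coe_one, e,
    PadicInt.coe_zero]

theorem exists_emb : Nonempty (Qbar →+* Om p) := by
  let _ : Algebra ℚ (Om p) := DivisionRing.toRatAlgebra
  have : Algebra.IsAlgebraic ℚ Qbar := IsAlgClosure.isAlgebraic
  exact ⟨(IsAlgClosed.lift (R := ℚ) (S := Qbar) (M := Om p)).toRingHom⟩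

end padic

/-- the structure map `ℤ_p → Om p` -/
noncomputable def al (p : ℕ) [Fact p.Prime] : ℤ_[p] →+* Om p :=
  (algebraMap ℚ_[p] (Om p)).comp PadicInt.Coe.ringHom

theorem al_apply {p : ℕ} [Fact p.Prime] (z : ℤ_[p]) :
    al p z = algebraMap ℚ_[p] (Om p) (z : ℚ_[p]) := rfl

/-- images of the constants -/
theorem im {p : ℕ} [Fact p.Prime] (i : Qbar →+* Om p) (w : ℤ_[p])
    (hi : i om = algebraMap ℚ_[p] (Om p) (w : ℚ_[p])) :
    i ka13 = al p (13 * (4 + 3 * w)) ∧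
    i ka73 = al p (73 * (1 + 9 * w)) ∧
    i ka19 = al p (19 * (-2 + 3 * w)) := by
  rw [← al_apply] at hi
  refine ⟨?_, ?_, ?_⟩
  · unfold ka13
    simp only [map_mul, map_add, map_ofNat, hi]
  · unfold ka73
    simp only [map_mul, map_add, map_ofNat, map_one, hi]
  · unfold ka19
    simp only [map_mul, map_add, map_neg, map_ofNat, hi]

theorem ka_eq : ka = ka13 * ka73 * ka19 := by
  unfold ka ka13 ka73 ka19
  linear_combination (-(18031 * (81 * om - 18)) : Qbar) * om_spec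

theorem red {p : ℕ} [Fact p.Prime] (M N A : ℤ_[p]) (x j : ℕ) (t : ℚ_[p])
    (h : al p M * al p A ^ x = (al p N * al p A) ^ j * (algebraMap ℚ_[p] (Om p) t) ^ 3) :
    (M : ℚ_[p]) * (A : ℚ_[p]) ^ x = ((N : ℚ_[p]) * (A : ℚ_[p])) ^ j * t ^ 3 := by
  apply (algebraMap ℚ_[p] (Om p)).injective
  simpa only [map_mul, map_pow, ← al_apply] using h

/-- the combination of everything: from an equation in `Om p` to one in `ZMod p` -/
theorem toRes {p : ℕ} [hp : Fact p.Prime] (M N u u' : ℤ_[p]) (hM : PadicInt.toZMod M ≠ 0)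
    (hN : PadicInt.toZMod N ≠ 0) (hu : u * u' = p)
    (hres : PadicInt.toZMod u ≠ 0 ∨ PadicInt.toZMod u' ≠ 0)
    (x j : ℕ) (hx : x < 3) (hj : j < 3) (t : ℚ_[p])
    (h : al p M * al p ((p : ℤ_[p]) * u) ^ x =
      (al p N * al p ((p : ℤ_[p]) * u)) ^ j * (algebraMap ℚ_[p] (Om p) t) ^ 3) :
    x = j ∧ ∃ τ : ZMod p, PadicInt.toZMod M = PadicInt.toZMod N ^ j * τ ^ 3 := by
  obtain ⟨v, hv, hA⟩ := norm_A u u' hu hres
  obtain ⟨h1, τ, h2⟩ := gen M N ((p : ℤ_[p]) * u) ((norm_one_iff M).2 hM) ((norm_one_iff N).2 hN)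
    v hv hA x j hx hj t (red M N _ x j t h)
  refine ⟨h1, PadicInt.toZMod τ, ?_⟩
  rw [h2, map_mul, map_pow, map_pow]

theorem fin13a : ∀ r : ZMod 13, r ^ 2 + r + 1 = 0 →
    (73 * (1 + 9 * r) ≠ 0 ∧ 19 * (-2 + 3 * r) ≠ 0 ∧ (4 + 3 * r ≠ 0 ∨ 1 - 3 * r ≠ 0)) := by
  decide +kernel

theorem fin13b : ∀ r : ZMod 13, r ^ 2 + r + 1 = 0 → ∀ x y c : Fin 3, ∀ τ : ZMod 13,
    (73 * (1 + 9 * r)) ^ (y : ℕ) * (19 * (-2 + 3 * r)) ^ (c : ℕ) =
      ((73 * (1 + 9 * r)) * (19 * (-2 + 3 * r))) ^ (x : ℕ) * τ ^ 3 →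
    ((x : ℕ) + (y : ℕ) + (c : ℕ)) % 3 = 0 := by
  decide +kernel

theorem fin73a : ∀ r : ZMod 73, r ^ 2 + r + 1 = 0 →
    (13 * (4 + 3 * r) ≠ 0 ∧ 19 * (-2 + 3 * r) ≠ 0 ∧ (1 + 9 * r ≠ 0 ∨ -8 - 9 * r ≠ 0)) := by
  decide +kernel

theorem fin73b : ∀ r : ZMod 73, r ^ 2 + r + 1 = 0 → ∀ x y c : Fin 3, ∀ τ : ZMod 73,
    (13 * (4 + 3 * r)) ^ (x : ℕ) * (19 * (-2 + 3 * r)) ^ (c : ℕ) =
      ((13 * (4 + 3 * r)) * (19 * (-2 + 3 * r))) ^ (y : ℕ) * τ ^ 3 →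
    (y : ℕ) = (c : ℕ) := by
  decide +kernel

theorem fin19a : ∀ r : ZMod 19, r ^ 2 + r + 1 = 0 →
    (13 * (4 + 3 * r) ≠ 0 ∧ 73 * (1 + 9 * r) ≠ 0 ∧ (-2 + 3 * r ≠ 0 ∨ -5 - 3 * r ≠ 0)) := by
  decide +kernel

theorem fin19b : ∀ i j : Fin 3, ∀ τ : ZMod 19,
    (13 : ZMod 19) ^ (i : ℕ) * 73 ^ (j : ℕ) = τ ^ 3 → (i : ℕ) = (j : ℕ) := by
  decide +kernel

theorem at13 (hOm : OmStmt) [hp : Fact (Nat.Prime 13)] (i : Qbar →+* Om 13) (x y c j : ℕ)
    (hx : x < 3) (hj : j < 3) (t : ℚ_[13])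
    (h : i (ka13 ^ x * ka73 ^ y * ka19 ^ c) = i ka ^ j * (algebraMap ℚ_[13] (Om 13) t) ^ 3) :
    x = j ∧ ∃ r : ZMod 13, r ^ 2 + r + 1 = 0 ∧ ∃ τ : ZMod 13,
      (73 * (1 + 9 * r)) ^ y * (19 * (-2 + 3 * r)) ^ c =
        ((73 * (1 + 9 * r)) * (19 * (-2 + 3 * r))) ^ j * τ ^ 3 := by
  obtain ⟨w, hw, hi⟩ := exists_w hOm (by norm_num) i
  obtain ⟨e1, e2, e3⟩ := im i w hi
  have hr : (PadicInt.toZMod w) ^ 2 + PadicInt.toZMod w + 1 = 0 := by
    have := congrArg PadicInt.toZMod hw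
    simpa only [map_add, map_pow, map_one, map_zero] using this
  obtain ⟨f1, f2, f3'⟩ := fin13a _ hr
  have hM : PadicInt.toZMod ((73 * (1 + 9 * w)) ^ y * (19 * (-2 + 3 * w)) ^ c) ≠ 0 := by
    simp only [map_mul, map_pow, map_add, map_one, map_neg, map_ofNat]
    exact mul_ne_zero (pow_ne_zero _ f1) (pow_ne_zero _ f2)
  have hN : PadicInt.toZMod ((73 * (1 + 9 * w)) * (19 * (-2 + 3 * w))) ≠ 0 := by
    simp only [map_mul, map_add, map_one, map_neg, map_ofNat]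
    exact mul_ne_zero f1 f2
  have hu : (4 + 3 * w) * (1 - 3 * w) = ((13 : ℕ) : ℤ_[13]) := by
    push_cast
    linear_combination (-9) * hw
  obtain ⟨g1, τ, g2⟩ := toRes _ _ (4 + 3 * w) (1 - 3 * w) hM hN hu
    (by simpa only [map_mul, map_add, map_sub, map_one, map_ofNat] using f3') x j hx hj t (by
      rw [map_mul i, map_mul i, map_pow i, map_pow i, map_pow i, e1, e2, e3, ka_eq, map_mul i,
        map_mul i, e1, e2, e3] at h
      rw [map_mul (al 13) (_ ^ y), map_pow (al 13), map_pow (al 13),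
        map_mul (al 13) (73 * (1 + 9 * w))]
      push_cast
      linear_combination h)
  refine ⟨g1, _, hr, τ, ?_⟩
  simpa only [map_mul, map_pow, map_add, map_one, map_neg, map_ofNat] using g2

theorem at73 (hOm : OmStmt) [hp : Fact (Nat.Prime 73)] (i : Qbar →+* Om 73) (x y c j : ℕ)
    (hy : y < 3) (hj : j < 3) (t : ℚ_[73])
    (h : i (ka13 ^ x * ka73 ^ y * ka19 ^ c) = i ka ^ j * (algebraMap ℚ_[73] (Om 73) t) ^ 3) :
    y = j ∧ ∃ r : ZMod 73, r ^ 2 + r + 1 = 0 ∧ ∃ τ : ZMod 73,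
      (13 * (4 + 3 * r)) ^ x * (19 * (-2 + 3 * r)) ^ c =
        ((13 * (4 + 3 * r)) * (19 * (-2 + 3 * r))) ^ j * τ ^ 3 := by
  obtain ⟨w, hw, hi⟩ := exists_w hOm (by norm_num) i
  obtain ⟨e1, e2, e3⟩ := im i w hi
  have hr : (PadicInt.toZMod w) ^ 2 + PadicInt.toZMod w + 1 = 0 := by
    have := congrArg PadicInt.toZMod hw
    simpa only [map_add, map_pow, map_one, map_zero] using this
  obtain ⟨f1, f2, f3'⟩ := fin73a _ hr
  have hM : PadicInt.toZMod ((13 * (4 + 3 * w)) ^ x * (19 * (-2 + 3 * w)) ^ c) ≠ 0 := by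
    simp only [map_mul, map_pow, map_add, map_neg, map_ofNat]
    exact mul_ne_zero (pow_ne_zero _ f1) (pow_ne_zero _ f2)
  have hN : PadicInt.toZMod ((13 * (4 + 3 * w)) * (19 * (-2 + 3 * w))) ≠ 0 := by
    simp only [map_mul, map_add, map_neg, map_ofNat]
    exact mul_ne_zero f1 f2
  have hu : (1 + 9 * w) * (-8 - 9 * w) = ((73 : ℕ) : ℤ_[73]) := by
    push_cast
    linear_combination (-81) * hw
  obtain ⟨g1, τ, g2⟩ := toRes _ _ (1 + 9 * w) (-8 - 9 * w) hM hN hu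
    (by simpa only [map_mul, map_add, map_sub, map_one, map_neg, map_ofNat] using f3') y j hy hj t
    (by
      rw [map_mul i, map_mul i, map_pow i, map_pow i, map_pow i, e1, e2, e3, ka_eq, map_mul i,
        map_mul i, e1, e2, e3] at h
      rw [map_mul (al 73) (_ ^ x), map_pow (al 73), map_pow (al 73),
        map_mul (al 73) (13 * (4 + 3 * w))]
      push_cast
      linear_combination h)
  refine ⟨g1, _, hr, τ, ?_⟩
  simpa only [map_mul, map_pow, map_add, map_one, map_neg, map_ofNat] using g2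

theorem num1 (hOm : OmStmt) : Num1Stmt := by
  intro x y c hx hy hc
  have p13 : Fact (Nat.Prime 13) := ⟨by norm_num⟩
  have p73 : Fact (Nat.Prime 73) := ⟨by norm_num⟩
  obtain ⟨i13⟩ := exists_emb (p := 13)
  obtain ⟨i73⟩ := exists_emb (p := 73)
  constructor
  · intro h
    obtain ⟨j, hj, t, ht⟩ := h 13 (Or.inl rfl) i13
    obtain ⟨a1, r, a2, τ, a3⟩ := at13 hOm i13 x y c j hx hj t ht
    obtain ⟨j', hj', t', ht'⟩ := h 73 (Or.inr rfl) i73
    obtain ⟨b1, r', b2, τ', b3⟩ := at73 hOm i73 x y c j' hy hj' t' ht'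
    subst a1
    subst b1
    have c1 := fin13b r a2 ⟨x, hx⟩ ⟨y, hy⟩ ⟨c, hc⟩ τ a3
    have c2 := fin73b r' b2 ⟨x, hx⟩ ⟨y, hy⟩ ⟨c, hc⟩ τ' b3
    simp only at c1 c2
    omega
  · intro h
    obtain ⟨t, ht⟩ := h 13 (Or.inl rfl) i13
    obtain ⟨a1, r, a2, τ, a3⟩ := at13 hOm i13 x y c 0 hx (by norm_num) t (by rw [ht]; ring)
    obtain ⟨t', ht'⟩ := h 73 (Or.inr rfl) i73
    obtain ⟨b1, r', b2, τ', b3⟩ := at73 hOm i73 x y c 0 hy (by norm_num) t' (by rw [ht']; ring)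
    subst a1
    subst b1
    have c1 := fin13b r a2 ⟨0, hx⟩ ⟨0, hy⟩ ⟨c, hc⟩ τ a3
    simp only at c1
    omega

theorem z13 : (13 : ZMod 19) ≠ 0 := by decide

theorem z73 : (73 : ZMod 19) ≠ 0 := by decide

theorem num2 (hOm : OmStmt) : Num2Stmt := by
  intro p19 e i j m hi3 hj3 hm3
  obtain ⟨w, hw, hi⟩ := exists_w hOm (by norm_num) e
  obtain ⟨e1, e2, e3⟩ := im e w hi
  have hr : (PadicInt.toZMod w) ^ 2 + PadicInt.toZMod w + 1 = 0 := by
    have := congrArg PadicInt.toZMod hw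
    simpa only [map_add, map_pow, map_one, map_zero] using this
  obtain ⟨f1, f2, f3'⟩ := fin19a _ hr
  have hM : PadicInt.toZMod (13 ^ i * 73 ^ j : ℤ_[19]) ≠ 0 := by
    simp only [map_mul, map_pow, map_ofNat]
    exact mul_ne_zero (pow_ne_zero _ z13) (pow_ne_zero _ z73)
  have hfin : ∀ τ : ZMod 19, PadicInt.toZMod (13 ^ i * 73 ^ j : ℤ_[19]) = τ ^ 3 → i = j := by
    intro τ h
    simp only [map_mul, map_pow, map_ofNat] at h
    exact fin19b ⟨i, hi3⟩ ⟨j, hj3⟩ τ h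
  constructor
  · rintro ⟨n, hn, t, ht⟩
    have hN : PadicInt.toZMod ((13 * (4 + 3 * w)) * (73 * (1 + 9 * w))) ≠ 0 := by
      simp only [map_mul, map_add, map_one, map_ofNat]
      exact mul_ne_zero f1 f2
    have hu : (-2 + 3 * w) * (-5 - 3 * w) = ((19 : ℕ) : ℤ_[19]) := by
      push_cast
      linear_combination (-9) * hw
    obtain ⟨g1, τ, g2⟩ := toRes _ _ (-2 + 3 * w) (-5 - 3 * w) hM hN hu
      (by simpa only [map_mul, map_add, map_sub, map_one, map_neg, map_ofNat] using f3') 0 n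
      (by norm_num) hn t (by
        rw [ka_eq, map_mul e, map_mul e, e1, e2, e3] at ht
        rw [map_mul (al 19) (13 ^ i), map_pow (al 19), map_pow (al 19), map_ofNat, map_ofNat,
          map_mul (al 19) (13 * (4 + 3 * w))]
        push_cast
        linear_combination ht)
    subst g1
    exact hfin τ (by rw [g2]; ring)
  · rintro ⟨t, ht⟩
    obtain ⟨g1, τ, g2⟩ := toRes (13 ^ i * 73 ^ j : ℤ_[19]) 1 1 19 hM (by simp) (by norm_num)
      (Or.inl (by simp)) m 0 hm3 (by norm_num) t (by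
        rw [map_mul (al 19) (13 ^ i), map_pow (al 19), map_pow (al 19), map_ofNat, map_ofNat]
        push_cast
        rw [mul_one, map_ofNat]
        linear_combination ht)
    exact ⟨hfin τ (by rw [g2]; ring), g1⟩

end H92
end F8
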