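import Pool.Agent.H15.F8.Targets

/-!
# Project MP_f8d35d_nt, module W4: `E(Qbar)` is `3`-divisible
-/

open WeierstrassCurve WeierstrassCurve.Affine

namespace F8
namespace H92

section

variable {A : Type} [Field A] [Algebra ℚ A] [DecidableEq A]

theorem add_ne (R S : Pt A) (hR : R ≠ 0) (hS : S ≠ 0) (h : xc R ≠ xc S) :
    R + S ≠ 0 ∧ xc (R + S) = ((yc R - yc S) / (xc R - xc S)) ^ 2 +
      2 * ((yc R - yc S) / (xc R - xc S)) - xc R - xc S := by
  match R, S, hR, hS with
  | 0, _, h0, _ => exact absurd rfl h0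
  | _, 0, _, h0 => exact absurd rfl h0
  | .some x y hn, .some x' y' hn', _, _ =>
    simp only [xc_some] at h
    rw [Point.add_of_X_ne h]
    refine ⟨Point.some_ne_zero _, ?_⟩
    simp only [xc_some, yc_some, Affine.addX, Affine.slope_of_X_ne h]
    simp only [E, WeierstrassCurve.baseChange, WeierstrassCurve.map_a₁, WeierstrassCurve.map_a₂,
      map_zero, map_ofNat]
    ring

theorem dbl (R : Pt A) (hR : R ≠ 0) (h : 2 * yc R + 2 * xc R - 949 ≠ 0) :
    R + R ≠ 0 ∧ xc (R + R) = ((3 * xc R ^ 2 - 2 * yc R) / (2 * yc R + 2 * xc R - 949)) ^ 2 +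
      2 * ((3 * xc R ^ 2 - 2 * yc R) / (2 * yc R + 2 * xc R - 949)) - 2 * xc R ∧
      yc (R + R) = -(((3 * xc R ^ 2 - 2 * yc R) / (2 * yc R + 2 * xc R - 949)) *
        (xc (R + R) - xc R) + yc R) - 2 * xc (R + R) + 949 := by
  match R, hR with
  | 0, h0 => exact absurd rfl h0
  | .some x y hn, _ =>
    simp only [xc_some, yc_some] at h
    have hy : y ≠ (E⁄A).negY x y := by
      simp only [Affine.negY, E, WeierstrassCurve.baseChange,
        WeierstrassCurve.map_a₁, WeierstrassCurve.map_a₃, map_neg, map_ofNat]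
      intro h1
      apply h
      linear_combination h1
    rw [Point.add_self_of_Y_ne hy]
    have hs : (E⁄A).slope x x y y = (3 * x ^ 2 - 2 * y) / (2 * y + 2 * x - 949) := by
      rw [Affine.slope_of_Y_ne rfl hy]
      simp only [Affine.negY, E, WeierstrassCurve.baseChange,
        WeierstrassCurve.map_a₁, WeierstrassCurve.map_a₂, WeierstrassCurve.map_a₃,
        WeierstrassCurve.map_a₄, map_neg, map_zero, map_ofNat]
      congr 1 <;> ring
    refine ⟨Point.some_ne_zero _, ?_, ?_⟩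
    · simp only [xc_some, yc_some, Affine.addX, hs]
      simp only [E, WeierstrassCurve.baseChange, WeierstrassCurve.map_a₁, WeierstrassCurve.map_a₂,
        map_zero, map_ofNat]
      ring
    · simp only [xc_some, yc_some, Affine.addX, Affine.addY, Affine.negAddY, Affine.negY, hs]
      simp only [E, WeierstrassCurve.baseChange, WeierstrassCurve.map_a₁, WeierstrassCurve.map_a₂,
        WeierstrassCurve.map_a₃, map_neg, map_zero, map_ofNat]
      ring

/-- `ψ_2^2` -/
def fB (x : A) : A := 4 * x ^ 3 + 4 * x ^ 2 - 3796 * x + 900601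
/-- numerator of the tangent slope -/
def fm (x : A) : A := 3 * x ^ 2 + 2 * x - 949
/-- `ψ_3` -/
def f3 (x : A) : A := (1 + 3 * x) * fB x - fm x ^ 2

omit [DecidableEq A] in
theorem no_common (x : A) (h1 : fB x = 0) (h2 : fm x = 0) : False := by
  have hA : CharZero A := algebraRat.charZero A
  unfold fB at h1
  unfold fm at h2
  have e1 : 9 * (4 * x ^ 3 + 4 * x ^ 2 - 3796 * x + 900601) -
    (12 * x + 4) * (3 * x ^ 2 + 2 * x - 949) = -22784 * x + 8109205 := by ring
  rw [h1, h2] at e1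
  have e2 : 22784 * x = 8109205 := by linear_combination e1
  have e3 : 22784 ^ 2 * (3 * x ^ 2 + 2 * x - 949) =
    3 * (22784 * x) ^ 2 + 2 * 22784 * (22784 * x) - 949 * 22784 ^ 2 := by ring
  rw [h2, e2] at e3
  norm_num at e3

theorem eq_or_neg (R S : Pt A) (hR : R ≠ 0) (hS : S ≠ 0) (h : xc R = xc S) : R = S ∨ R = -S := by
  have e1 := pt_eqn R hR
  have e2 := pt_eqn S hS
  rw [h] at e1
  have e3 : (yc R - yc S) * (yc R + yc S + 2 * xc S - 949) = 0 := by
    linear_combination e1 - e2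
  have hS' : -S ≠ 0 := neg_ne_zero.2 hS
  rcases mul_eq_zero.mp e3 with h1 | h1
  · left; exact pt_ext hR hS h (by linear_combination h1)
  · right
    refine pt_ext hR hS' (by rw [xc_neg, h]) ?_
    rw [yc_neg _ hS]
    linear_combination h1

omit [DecidableEq A] in
theorem fB_eq (R : Pt A) (hR : R ≠ 0) :
    (2 * yc R + 2 * xc R - 949) ^ 2 = fB (xc R) := by
  unfold fB
  linear_combination 4 * pt_eqn R hR

theorem triple (R : Pt A) (hR : R ≠ 0) (h3 : f3 (xc R) ≠ 0) :
    (3 : ℕ) • R ≠ 0 ∧ xc ((3 : ℕ) • R) * f3 (xc R) ^ 2 =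
      xc R * f3 (xc R) ^ 2 + fB (xc R) * (fB (xc R) ^ 2 - 2 * fm (xc R) * f3 (xc R)) := by
  have hA : CharZero A := algebraRat.charZero A
  have e3 : (3 : ℕ) • R = (R + R) + R := by
    rw [show (3 : ℕ) = 2 + 1 from rfl, add_nsmul, two_nsmul, one_nsmul]
  by_cases hu : 2 * yc R + 2 * xc R - 949 = 0
  · -- `2R = 0`
    have hB : fB (xc R) = 0 := by rw [← fB_eq R hR, hu]; ring
    have hRR : R = -R := by
      refine pt_ext hR (neg_ne_zero.2 hR) (by rw [xc_neg]) ?_
      rw [yc_neg _ hR]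
      linear_combination hu
    have h0 : R + R = 0 := by
      nth_rw 2 [hRR]
      rw [add_neg_cancel]
    rw [e3, h0, zero_add]
    refine ⟨hR, ?_⟩
    rw [hB]; ring
  · obtain ⟨d0, d1, d2⟩ := dbl R hR hu
    set x := xc R with hx
    set y := yc R with hy
    set x2 := xc (R + R) with hx2
    set y2 := yc (R + R) with hy2
    set u := 2 * y + 2 * x - 949 with hu'
    have hBu : u ^ 2 = fB x := fB_eq R hR
    -- `x2 - x = - f3 / u^2`
    have k1 : (x2 - x) * u ^ 2 = -f3 x := by
      rw [d1]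
      have : f3 x = (1 + 3 * x) * u ^ 2 - fm x ^ 2 := by rw [hBu]; rfl
      rw [this]
      unfold fm
      have hm : 3 * x ^ 2 - 2 * y = (3 * x ^ 2 + 2 * x - 949) - u := by rw [hu']; ring
      rw [hm]
      field_simp
      ring
    have hne : x2 ≠ x := by
      intro h
      rw [h, sub_self, zero_mul] at k1
      apply h3
      linear_combination k1
    obtain ⟨t0, t1⟩ := add_ne (R + R) R d0 hR hne
    rw [e3]
    refine ⟨t0, ?_⟩
    rw [t1, ← hx, ← hy, ← hx2, ← hy2]
    -- slope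
    have hsub : x2 - x ≠ 0 := sub_ne_zero.2 hne
    have k2 : ((y2 - y) / (x2 - x) + 1) * (u * f3 x) = u ^ 4 - fm x * f3 x := by
      have hl : y2 - y = -2 * y - 2 * x + 949 - ((3 * x ^ 2 - 2 * y) / u + 2) * (x2 - x) := by
        rw [d2]; ring
      have hl2 : (y2 - y) / (x2 - x) = -u / (x2 - x) - ((3 * x ^ 2 - 2 * y) / u + 2) := by
        rw [hl, eq_sub_iff_add_eq, div_add' _ _ _ hsub, div_left_inj' hsub, hu']
        ring
      rw [hl2]
      have hf : f3 x = -(x2 - x) * u ^ 2 := by linear_combination k1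
      have hm : (3 * x ^ 2 - 2 * y) / u = fm x / u - 1 := by
        unfold fm
        rw [eq_sub_iff_add_eq, div_add' _ _ _ hu, div_left_inj' hu, hu']
        ring
      rw [hm, hf]
      field_simp
      ring
    set l := (y2 - y) / (x2 - x) with hl
    have k3 : x2 * u ^ 2 = x * u ^ 2 - f3 x := by linear_combination k1
    have hu2 : u ^ 2 ≠ 0 := pow_ne_zero _ hu
    have key : u ^ 2 * ((l ^ 2 + 2 * l - x2 - x) * f3 x ^ 2) =
        u ^ 2 * (x * f3 x ^ 2 + u ^ 2 * ((u ^ 2) ^ 2 - 2 * fm x * f3 x)) := by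
      have hf : f3 x = (1 + 3 * x) * u ^ 2 - fm x ^ 2 := by rw [hBu]; rfl
      have e1 : u ^ 2 * ((l ^ 2 + 2 * l - x2 - x) * f3 x ^ 2) =
        ((l + 1) * (u * f3 x)) ^ 2 - u ^ 2 * f3 x ^ 2 * (1 + x) - x2 * u ^ 2 * f3 x ^ 2 := by
        ring
      rw [e1, k2, k3]
      have hf2 : fm x ^ 2 = (1 + 3 * x) * u ^ 2 - f3 x := by linear_combination hf
      linear_combination f3 x ^ 2 * hf2
    have := mul_left_cancel₀ hu2 key
    rw [← hBu]
    exact this

end

theorem exists_root9 (X0 : Qbar) : ∃ x : Qbar,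
    (x - X0) * f3 x ^ 2 + fB x * (fB x ^ 2 - 2 * fm x * f3 x) = 0 := by
  open Polynomial in
  let pB : Qbar[X] := C 4 * X ^ 3 + C 4 * X ^ 2 - C 3796 * X + C 900601
  open Polynomial in
  let pm' : Qbar[X] := C 3 * X ^ 2 + C 2 * X - C 949
  open Polynomial in
  let p3 : Qbar[X] := (1 + C 3 * X) * pB - pm' ^ 2
  open Polynomial in
  let P : Qbar[X] := (X - C X0) * p3 ^ 2 + pB * (pB ^ 2 - C 2 * pm' * p3)
  have hev : ∀ x : Qbar, P.eval x =
      (x - X0) * f3 x ^ 2 + fB x * (fB x ^ 2 - 2 * fm x * f3 x) := by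
    intro x
    simp only [P, p3, pm', pB, f3, fB, fm, Polynomial.eval_add, Polynomial.eval_sub,
      Polynomial.eval_mul, Polynomial.eval_pow, Polynomial.eval_X, Polynomial.eval_C,
      Polynomial.eval_one]
  have hdeg : P.degree ≠ 0 := by
    have h9 : P.degree = 9 := by
      simp only [P, p3, pB, pm']
      compute_degree!
    rw [h9]
    decide
  obtain ⟨x, hx⟩ := IsAlgClosed.exists_root P hdeg
  exact ⟨x, by rw [← hev]; exact hx⟩

theorem tripleStmt : TripleStmt := by
  intro Q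
  by_cases hQ : Q = 0
  · exact ⟨0, by rw [hQ]; simp⟩
  obtain ⟨x, hx⟩ := exists_root9 (xc Q)
  -- `f3 x ≠ 0`
  have h3 : f3 x ≠ 0 := by
    intro h
    rw [h] at hx
    have hB : fB x = 0 := by
      have : fB x ^ 3 = 0 := by linear_combination hx
      simpa using this
    have hm : fm x = 0 := by
      have h' := h
      unfold f3 at h'
      rw [hB] at h'
      have : fm x ^ 2 = 0 := by linear_combination -h'
      simpa using this
    exact no_common x hB hm
  -- choose `y`
  obtain ⟨y, hy⟩ : ∃ y : Qbar, y ^ 2 + 2 * x * y - 949 * y = x ^ 3 := by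
    obtain ⟨u, hu⟩ := IsAlgClosed.exists_pow_nat_eq (fB x) (n := 2) (by norm_num)
    refine ⟨(u - 2 * x + 949) / 2, ?_⟩
    unfold fB at hu
    linear_combination hu / 4
  let R : Pt Qbar := .some x y ((nonsingular_iff' x y).2 hy)
  have hR : R ≠ 0 := Point.some_ne_zero _
  have hxR : xc R = x := rfl
  obtain ⟨t0, t1⟩ := triple R hR (by rw [hxR]; exact h3)
  rw [hxR] at t1
  have h9 : xc ((3 : ℕ) • R) = xc Q := by
    have : (xc ((3 : ℕ) • R) - xc Q) * f3 x ^ 2 = 0 := by
      linear_combination t1 + hx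
    rcases mul_eq_zero.mp this with h | h
    · linear_combination h
    · exact absurd (by simpa using h) h3
  rcases eq_or_neg _ _ t0 hQ h9 with h | h
  · exact ⟨R, h⟩
  · exact ⟨-R, by rw [smul_neg, h, neg_neg]⟩

end H92
end F8
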